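import Pool.Agent.Lib_helper28.OFDefs
import Pool.Agent.OLF.Final

set_option autoImplicit false

open Pool.Agent.Lib_helper28.OF
open scoped Pointwise

namespace Pool.Agent.Dive.MP_036a22_al.Candidate

/-- There are a group `G` and a faithful oligomorphic action of `G` on an infinite set `S` such
that the stabiliser of every finite subset of `S` has type `FP_n` for all `n`, while no subgroup of
`G` is isomorphic to Thompson's group `F`. -/
theorem result : ∃ (G : Type) (_ : Group G) (S : Type) (_ : MulAction G S),
    Infinite S ∧ FaithfulSMul G S ∧ Oligomorphic G S ∧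
    (∀ A : Finset S, ∀ n : ℕ, TypeFP n (MulAction.stabilizer G (A : Set S))) ∧
    ¬ ∃ K : Subgroup G, Nonempty (K ≃* ThompsonF) :=
  Pool.Agent.OLF.main

end Pool.Agent.Dive.MP_036a22_al.Candidate
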